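import Pool.Agent.Helper87.HB.Upper

set_option autoImplicit false

namespace Pool.Agent.Helper87.HB

open Finset Filter

open Classical in
/-- The percolation probability. -/
noncomputable def pperc (n : ℕ) (r p : ℝ) : ℝ :=
  ∑ A ∈ (univ : Finset (Finset (Fin n → Bool))).filter (fun A => Perc r A), mu p A

lemma pperc_one (n : ℕ) (r : ℝ) : 1 / 2 ≤ pperc n r 1 := by
  classical
  have huniv : (univ : Finset (Fin n → Bool)) ∈
      (univ : Finset (Finset (Fin n → Bool))).filter (fun A => Perc r A) := by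
    rw [Finset.mem_filter]
    refine ⟨Finset.mem_univ _, ?_⟩
    intro S hS _
    exact Finset.univ_subset_iff.1 hS
  have h1 : mu 1 (univ : Finset (Fin n → Bool)) = 1 := by
    simp [mu]
  have h2 : mu 1 (univ : Finset (Fin n → Bool)) ≤ pperc n r 1 := by
    unfold pperc
    apply single_le_sum (f := fun A => mu 1 A) _ huniv
    intro A _
    exact mu_nonneg (by norm_num) (by norm_num) A
  linarith

/-- Eventual numerical inequalities. -/
lemma eventually_conds {a ε : ℝ} (ha : 0 < a) (ha1 : a < 1) (hε : 0 < ε) (hε1 : ε ≤ 1) :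
    ∀ᶠ n : ℕ in atTop, 10 ≤ n ∧ 24 * Real.log n ≤ ε * (n : ℝ) ^ a ∧
      144 * (Real.log n) ^ 2 ≤ ε ^ 2 * (n : ℝ) ^ a ∧
      1 ≤ ⌈(n : ℝ) ^ (1 - a / 2)⌉₊ ∧ 2 * ⌈(n : ℝ) ^ (1 - a / 2)⌉₊ ≤ n ∧
      192 * Real.log n * n ≤ ε ^ 2 * (⌈(n : ℝ) ^ (1 - a / 2)⌉₊ : ℕ) * (n : ℝ) ^ a ∧
      (1 + ε) * (n : ℝ) ^ (a - 1) ≤ 1 / 20 ∧
      8 * ((n : ℝ) ^ a + 1) ≤ ε * n ∧ 256 ≤ ε ^ 2 * (n : ℝ) ^ a := by
  have hlog : ∀ᶠ x : ℝ in atTop, Real.log x ≤ ε ^ 2 / 192 * x ^ (a / 2) := by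
    have h := (isLittleO_log_rpow_atTop (r := a / 2) (by positivity)).def
      (c := ε ^ 2 / 192) (by positivity)
    filter_upwards [h, eventually_ge_atTop (1 : ℝ)] with x hx hx1
    rw [Real.norm_of_nonneg (Real.log_nonneg hx1), Real.norm_of_nonneg (by positivity)] at hx
    exact hx
  have hsmall : ∀ c : ℝ, 0 < c → ∀ b : ℝ, 0 < b → ∀ᶠ x : ℝ in atTop, x ^ (-b) ≤ c := by
    intro c hc b hb
    have h := tendsto_rpow_neg_atTop hb
    exact h.eventually (Iic_mem_nhds hc)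
  have hlarge : ∀ c : ℝ, ∀ b : ℝ, 0 < b → ∀ᶠ x : ℝ in atTop, c ≤ x ^ b := by
    intro c b hb
    exact (tendsto_rpow_atTop hb).eventually (eventually_ge_atTop c)
  have hall : ∀ᶠ x : ℝ in atTop, Real.log x ≤ ε ^ 2 / 192 * x ^ (a / 2) ∧ x ^ (-(a / 2)) ≤ 1 / 4 ∧
      x ^ (-(1 - a)) ≤ ε / 16 ∧ x ^ (-(1 - a)) ≤ 1 / 40 ∧ 256 / ε ^ 2 ≤ x ^ a ∧ 1 ≤ x ^ (a / 2) ∧
      16 / ε ≤ x ∧ 10 ≤ x :=
    hlog.and ((hsmall _ (by norm_num) _ (by positivity)).and
      ((hsmall _ (by positivity) _ (by linarith)).and ((hsmall _ (by norm_num) _ (by linarith)).and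
        ((hlarge _ _ ha).and ((hlarge _ _ (by positivity)).and
          ((eventually_ge_atTop _).and (eventually_ge_atTop _)))))))
  filter_upwards [tendsto_natCast_atTop_atTop.eventually hall] with n hn
  obtain ⟨h1, h2, h3, h4, h5, h6, h7, h8⟩ := hn
  have hnpos : (0 : ℝ) < n := by linarith
  have hn10 : 10 ≤ n := by exact_mod_cast h8
  have hlog0 : 0 ≤ Real.log n := Real.log_nonneg (by linarith)
  have hsq : (n : ℝ) ^ (a / 2) * (n : ℝ) ^ (a / 2) = (n : ℝ) ^ a := by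
    rw [← Real.rpow_add hnpos]; congr 1; ring
  have hprod : (n : ℝ) ^ (1 - a / 2) * (n : ℝ) ^ a = n * (n : ℝ) ^ (a / 2) := by
    rw [← Real.rpow_add hnpos]
    conv_rhs => rw [← Real.rpow_one_add' hnpos.le (by positivity)]
    congr 1; ring
  have hε2 : ε ^ 2 ≤ ε := by nlinarith
  have hinv : (n : ℝ) ^ (a - 1) = (n : ℝ) ^ (-(1 - a)) := by congr 1; ring
  have hna : (n : ℝ) ^ a = n * (n : ℝ) ^ (-(1 - a)) := by
    conv_rhs => rw [← Real.rpow_one_add' hnpos.le (by linarith)]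
    congr 1; ring
  have hn2 : (n : ℝ) ^ (1 - a / 2) = n * (n : ℝ) ^ (-(a / 2)) := by
    conv_rhs => rw [← Real.rpow_one_add' hnpos.le (by linarith)]
    congr 1
  set X := (n : ℝ) ^ (a / 2) with hX
  have hXpos : 0 < X := by linarith
  refine ⟨hn10, ?_, ?_, ?_, ?_, ?_, ?_, ?_, ?_⟩
  · rw [← hsq]
    have : ε ^ 2 / 192 * X ≤ ε / 192 * X := mul_le_mul_of_nonneg_right (by linarith) hXpos.le
    nlinarith [mul_pos hε hXpos]
  · rw [← hsq]
    have h9 : (Real.log n) ^ 2 ≤ (ε ^ 2 / 192 * X) ^ 2 := pow_le_pow_left₀ hlog0 h1 2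
    have h10 : (ε ^ 2 / 192 * X) ^ 2 ≤ ε ^ 2 * (X * X) / 144 := by
      have : ε ^ 4 ≤ ε ^ 2 := by nlinarith [sq_nonneg ε]
      nlinarith [mul_pos hXpos hXpos]
    linarith
  · rw [Nat.one_le_ceil_iff]; positivity
  · have h9 : (⌈(n : ℝ) ^ (1 - a / 2)⌉₊ : ℝ) < (n : ℝ) ^ (1 - a / 2) + 1 :=
      Nat.ceil_lt_add_one (by positivity)
    have h10 : (n : ℝ) ^ (1 - a / 2) ≤ n / 4 := by
      rw [hn2]
      have := mul_le_mul_of_nonneg_left h2 hnpos.le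
      linarith
    have h11 : (2 * ⌈(n : ℝ) ^ (1 - a / 2)⌉₊ : ℝ) ≤ n := by linarith
    exact_mod_cast h11
  · have h9 : (n : ℝ) ^ (1 - a / 2) ≤ (⌈(n : ℝ) ^ (1 - a / 2)⌉₊ : ℝ) := Nat.le_ceil _
    have h10 : ε ^ 2 * (n * X) ≤ ε ^ 2 * (⌈(n : ℝ) ^ (1 - a / 2)⌉₊ : ℝ) * (n : ℝ) ^ a := by
      rw [← hprod, ← mul_assoc]
      apply mul_le_mul_of_nonneg_right _ (by positivity)
      exact mul_le_mul_of_nonneg_left h9 (by positivity)
    have h11 : 192 * Real.log n * n ≤ ε ^ 2 * (n * X) := by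
      have := mul_le_mul_of_nonneg_right h1 hnpos.le
      nlinarith
    linarith
  · rw [hinv]
    have : (0 : ℝ) ≤ (n : ℝ) ^ (-(1 - a)) := by positivity
    nlinarith
  · rw [hna]
    have h9 := mul_le_mul_of_nonneg_left h3 hnpos.le
    have h10 : 16 ≤ ε * n := by
      rw [div_le_iff₀ hε] at h7
      linarith
    nlinarith
  · rw [div_le_iff₀ (by positivity)] at h5
    linarith

/-- The main asymptotic statement for every exponent `0 < a < 1`. -/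
theorem main {a : ℝ} (ha : 0 < a) (ha1 : a < 1) :
    Tendsto (fun n : ℕ => sInf {p : ℝ | 0 ≤ p ∧ p ≤ 1 ∧ (1 / 2 : ℝ) ≤ pperc n ((n : ℝ) ^ a) p}
      / (n : ℝ) ^ (a - 1)) atTop (nhds 1) := by
  rw [Metric.tendsto_atTop']
  intro δ hδ
  set ε := min (δ / 2) 1 with hεdef
  have hε : 0 < ε := by positivity
  have hε1 : ε ≤ 1 := min_le_right _ _
  have hεδ : ε ≤ δ / 2 := min_le_left _ _
  obtain ⟨N, hN⟩ := eventually_atTop.1 (eventually_conds ha ha1 hε hε1)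
  refine ⟨N, fun n hn => ?_⟩
  obtain ⟨h10, hc1, hc2, hc3, hc4, hc5, hc6, hc7, hc8⟩ := hN n hn.le
  have hnr : (10 : ℝ) ≤ n := by exact_mod_cast h10
  have hnpos : (0 : ℝ) < n := by linarith
  have hr : 0 < (n : ℝ) ^ a := by positivity
  have hq : 0 < (n : ℝ) ^ (a - 1) := by positivity
  have hqr : (n : ℝ) ^ (a - 1) * n = (n : ℝ) ^ a := by
    rw [Real.rpow_sub_one hnpos.ne']; field_simp
  set P := {p : ℝ | 0 ≤ p ∧ p ≤ 1 ∧ (1 / 2 : ℝ) ≤ pperc n ((n : ℝ) ^ a) p} with hP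
  have hbdd : BddBelow P := ⟨0, fun p hp => hp.1⟩
  have hne : P.Nonempty := ⟨1, by norm_num, le_refl _, pperc_one n _⟩
  have hup : sInf P ≤ (1 + ε) * (n : ℝ) ^ (a - 1) := by
    apply csInf_le hbdd
    refine ⟨by positivity, by linarith, ?_⟩
    exact supercritical (by positivity) (by linarith) hε hε1 hr hc7
      (by rw [mul_assoc, hqr]) hc8 (by omega)
  have hlo : (1 - ε) * (n : ℝ) ^ (a - 1) ≤ sInf P := by
    apply le_csInf hne
    rintro p ⟨hp0, hp1, hp⟩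
    by_contra hcon
    push Not at hcon
    have hp20 : p ≤ 1 / 20 := by nlinarith
    have := subcritical (L := Real.log n) hp0 hp20 hε hε1 h10 rfl hr.le hc1 hc2 hc3 hc4 hc5 (by
      have := mul_le_mul_of_nonneg_right hcon.le hnpos.le
      rw [mul_assoc, hqr] at this
      exact this)
    unfold pperc at hp
    linarith
  rw [Real.dist_eq, abs_lt]
  constructor
  · have : 1 - ε ≤ sInf P / (n : ℝ) ^ (a - 1) := by
      rw [le_div_iff₀ hq]; exact hlo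
    linarith
  · have : sInf P / (n : ℝ) ^ (a - 1) ≤ 1 + ε := by
      rw [div_le_iff₀ hq]; exact hup
    linarith

end Pool.Agent.Helper87.HB
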