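import Mathlib

set_option autoImplicit false

namespace Pool.Agent.Helper87.HB

open Finset

variable {n : ℕ}

/-- Flip coordinate `i`. -/
def flp (i : Fin n) (x : Fin n → Bool) : Fin n → Bool := Function.update x i (!x i)

lemma flp_same (i : Fin n) (x : Fin n → Bool) : flp i x i = !x i := by
  simp [flp]

lemma flp_ne {i j : Fin n} (h : j ≠ i) (x : Fin n → Bool) : flp i x j = x j := by
  simp [flp, h]

lemma flp_flp (i : Fin n) (x : Fin n → Bool) : flp i (flp i x) = x := by
  funext j
  by_cases h : j = i
  · subst h; simp [flp]
  · simp [flp, h]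

lemma flp_comm (i j : Fin n) (x : Fin n → Bool) : flp i (flp j x) = flp j (flp i x) := by
  funext k
  by_cases hi : k = i
  · subst hi
    by_cases hj : k = j
    · subst hj; rfl
    · rw [flp_same, flp_ne hj, flp_ne hj, flp_same]
  · by_cases hj : k = j
    · subst hj; rw [flp_ne hi, flp_same, flp_same, flp_ne hi]
    · rw [flp_ne hi, flp_ne hj, flp_ne hj, flp_ne hi]

lemma flp_inj_left {i j : Fin n} {x : Fin n → Bool} (h : flp i x = flp j x) : i = j := by
  by_contra hne
  have := congrFun h i
  rw [flp_same, flp_ne hne] at this
  cases hx : x i <;> simp [hx] at this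

lemma flp_injective (i : Fin n) : Function.Injective (flp i) := by
  intro x y h
  rw [← flp_flp i x, h, flp_flp]

lemma hammingDist_flp (i : Fin n) (x : Fin n → Bool) : hammingDist (flp i x) x = 1 := by
  unfold hammingDist
  have : (univ.filter (fun j => flp i x j ≠ x j)) = {i} := by
    ext j
    simp only [mem_filter, mem_univ, true_and, mem_singleton]
    constructor
    · intro h
      by_contra hne
      exact h (flp_ne hne x)
    · rintro rfl
      rw [flp_same]
      cases x j <;> simp
  rw [this]; simp

lemma exists_flp_of_hammingDist {u v : Fin n → Bool} (h : hammingDist u v = 1) :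
    ∃ i, u = flp i v := by
  unfold hammingDist at h
  rw [card_eq_one] at h
  obtain ⟨i, hi⟩ := h
  refine ⟨i, ?_⟩
  funext j
  by_cases hj : j = i
  · subst hj
    have : j ∈ (univ.filter (fun j => u j ≠ v j)) := by rw [hi]; simp
    simp only [mem_filter, mem_univ, true_and] at this
    rw [flp_same]
    cases hu : u j <;> cases hv : v j <;> simp_all
  · have : j ∉ (univ.filter (fun j => u j ≠ v j)) := by rw [hi]; simp [hj]
    simp only [mem_filter, mem_univ, true_and, not_not] at this
    rw [flp_ne hj, this]

/-- Number of neighbours of `v` in `S`. -/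
def dg (S : Finset (Fin n → Bool)) (v : Fin n → Bool) : ℕ :=
  (univ.filter (fun i : Fin n => flp i v ∈ S)).card

lemma card_filter_hammingDist (S : Finset (Fin n → Bool)) (v : Fin n → Bool) :
    (S.filter (fun u => hammingDist u v = 1)).card = dg S v := by
  unfold dg
  symm
  apply card_bij (fun i _ => flp i v)
  · intro i hi
    simp only [mem_filter, mem_univ, true_and] at hi ⊢
    exact ⟨hi, hammingDist_flp i v⟩
  · intro i _ j _ h
    exact flp_inj_left h
  · intro u hu
    simp only [mem_filter] at hu
    obtain ⟨i, rfl⟩ := exists_flp_of_hammingDist hu.2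
    exact ⟨i, by simp [hu.1], rfl⟩

lemma dg_mono {S T : Finset (Fin n → Bool)} (h : S ⊆ T) (v : Fin n → Bool) : dg S v ≤ dg T v := by
  apply card_le_card
  intro i hi
  simp only [mem_filter, mem_univ, true_and] at hi ⊢
  exact h hi

lemma dg_le (S : Finset (Fin n → Bool)) (v : Fin n → Bool) : dg S v ≤ n := by
  calc dg S v ≤ (univ : Finset (Fin n)).card := card_filter_le _ _
    _ = n := by simp

/-- The entropy-type inequality behind the edge-isoperimetric inequality. -/
lemma entropy_ineq {a b : ℝ} (ha : 0 ≤ a) (hab : a ≤ b) :
    a * Real.logb 2 a + b * Real.logb 2 b + 2 * a ≤ (a + b) * Real.logb 2 (a + b) := by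
  rcases ha.eq_or_lt with h0 | ha
  · subst h0; simp
  have hb : 0 < b := lt_of_lt_of_le ha hab
  have h1 : Real.logb 2 (a + b) = Real.logb 2 a + Real.logb 2 (1 + b / a) := by
    rw [← Real.logb_mul (by positivity) (by positivity)]
    congr 1; field_simp
  have h2 : Real.logb 2 (a + b) = Real.logb 2 b + Real.logb 2 (1 + a / b) := by
    rw [← Real.logb_mul (by positivity) (by positivity)]
    congr 1; field_simp; ring
  have h3 : 1 ≤ Real.logb 2 (1 + b / a) := by
    rw [Real.le_logb_iff_rpow_le (by norm_num) (by positivity)]
    have : 1 ≤ b / a := by rw [le_div_iff₀ ha]; linarith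
    rw [Real.rpow_one]; linarith
  have h4 : a / b ≤ Real.logb 2 (1 + a / b) := by
    rw [Real.le_logb_iff_rpow_le (by norm_num) (by positivity)]
    have h5 : a / b ≤ 1 := by rw [div_le_one hb]; exact hab
    have := rpow_one_add_le_one_add_mul_self (s := 1) (by norm_num) (p := a / b) (by positivity) h5
    norm_num at this
    linarith
  have h6 : a ≤ b * Real.logb 2 (1 + a / b) := by
    have := mul_le_mul_of_nonneg_left h4 hb.le
    have e : b * (a / b) = a := by field_simp
    linarith
  have h7 : a ≤ a * Real.logb 2 (1 + b / a) := by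
    have := mul_le_mul_of_nonneg_left h3 ha.le
    linarith
  calc a * Real.logb 2 a + b * Real.logb 2 b + 2 * a
      ≤ a * (Real.logb 2 a + Real.logb 2 (1 + b / a)) + b * (Real.logb 2 b + Real.logb 2 (1 + a / b)) := by
        linarith
    _ = (a + b) * Real.logb 2 (a + b) := by rw [← h1, ← h2]; ring

lemma entropy_ineq' {a b : ℝ} (ha : 0 ≤ a) (hb : 0 ≤ b) :
    a * Real.logb 2 a + b * Real.logb 2 b + 2 * min a b ≤ (a + b) * Real.logb 2 (a + b) := by
  rcases le_total a b with h | h
  · rw [min_eq_left h]; exact entropy_ineq ha h
  · rw [min_eq_right h]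
    have := entropy_ineq hb h
    rw [add_comm b a] at this
    linarith

lemma iso_aux (I : Finset (Fin n)) : ∀ S : Finset (Fin n → Bool),
    (∀ x ∈ S, ∀ y ∈ S, ∀ j, j ∉ I → x j = y j) →
    (∑ x ∈ S, ((I.filter (fun i => flp i x ∈ S)).card : ℝ)) ≤ S.card * Real.logb 2 S.card := by
  induction I using Finset.induction_on with
  | empty =>
    intro S hS
    simp only [filter_empty, card_empty, Nat.cast_zero, sum_const_zero]
    rcases Nat.eq_zero_or_pos S.card with h | h
    · simp [h]
    · have : (1 : ℝ) ≤ S.card := by exact_mod_cast h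
      have := Real.logb_nonneg (b := 2) (by norm_num) this
      positivity
  | insert j I hj ih =>
    intro S hS
    set S0 := S.filter (fun x => x j = false) with hS0
    set S1 := S.filter (fun x => x j = true) with hS1
    have hdisj : Disjoint S0 S1 := by
      rw [disjoint_left]
      intro x h0 h1
      simp only [hS0, hS1, mem_filter] at h0 h1
      rw [h0.2] at h1
      exact absurd h1.2 (by simp)
    have hunion : S = S0 ∪ S1 := by
      ext x
      simp only [hS0, hS1, mem_union, mem_filter]
      constructor
      · intro h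
        cases hx : x j
        · left; exact ⟨h, rfl⟩
        · right; exact ⟨h, rfl⟩
      · rintro (h | h) <;> exact h.1
    have hcard : (S.card : ℝ) = S0.card + S1.card := by
      rw [hunion, card_union_of_disjoint hdisj]; push_cast; rfl
    have ih0 := ih S0 (by
      intro x hx y hy k hk
      simp only [hS0, mem_filter] at hx hy
      by_cases hkj : k = j
      · subst hkj; rw [hx.2, hy.2]
      · exact hS x hx.1 y hy.1 k (by simp [hkj, hk]))
    have ih1 := ih S1 (by
      intro x hx y hy k hk
      simp only [hS1, mem_filter] at hx hy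
      by_cases hkj : k = j
      · subst hkj; rw [hx.2, hy.2]
      · exact hS x hx.1 y hy.1 k (by simp [hkj, hk]))
    -- split the count
    have hsplit : ∀ x, (((insert j I).filter (fun i => flp i x ∈ S)).card : ℝ)
        = (if flp j x ∈ S then 1 else 0) + ((I.filter (fun i => flp i x ∈ S)).card : ℝ) := by
      intro x
      rw [filter_insert]
      split_ifs with h
      · rw [card_insert_of_notMem (by simp [hj])]
        push_cast; ring
      · ring
    have hA : (∑ x ∈ S0, ((I.filter (fun i => flp i x ∈ S)).card : ℝ))
        = ∑ x ∈ S0, ((I.filter (fun i => flp i x ∈ S0)).card : ℝ) := by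
      apply sum_congr rfl
      intro x hx
      congr 2
      apply filter_congr
      intro i hi
      have hij : j ≠ i := by rintro rfl; exact hj hi
      simp only [hS0, mem_filter] at hx ⊢
      rw [flp_ne hij]
      simp [hx.2]
    have hB : (∑ x ∈ S1, ((I.filter (fun i => flp i x ∈ S)).card : ℝ))
        = ∑ x ∈ S1, ((I.filter (fun i => flp i x ∈ S1)).card : ℝ) := by
      apply sum_congr rfl
      intro x hx
      congr 2
      apply filter_congr
      intro i hi
      have hij : j ≠ i := by rintro rfl; exact hj hi
      simp only [hS1, mem_filter] at hx ⊢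
      rw [flp_ne hij]
      simp [hx.2]
    have hC0 : (∑ x ∈ S0, (if flp j x ∈ S then (1 : ℝ) else 0)) ≤ min (S0.card : ℝ) S1.card := by
      rw [← sum_filter, sum_const, nsmul_eq_mul, mul_one]
      apply le_min
      · exact_mod_cast card_filter_le _ _
      · have : (S0.filter (fun x => flp j x ∈ S)).card ≤ S1.card := by
          apply card_le_card_of_injOn (flp j)
          · intro x hx
            simp only [hS0, coe_filter, mem_filter, Set.mem_ofPred_eq] at hx
            simp only [hS1, coe_filter, Set.mem_ofPred_eq]
            exact ⟨hx.2, by rw [flp_same, hx.1.2]; rfl⟩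
          · exact (flp_injective j).injOn
        exact_mod_cast this
    have hC1 : (∑ x ∈ S1, (if flp j x ∈ S then (1 : ℝ) else 0)) ≤ min (S0.card : ℝ) S1.card := by
      rw [← sum_filter, sum_const, nsmul_eq_mul, mul_one]
      apply le_min
      · have : (S1.filter (fun x => flp j x ∈ S)).card ≤ S0.card := by
          apply card_le_card_of_injOn (flp j)
          · intro x hx
            simp only [hS1, coe_filter, mem_filter, Set.mem_ofPred_eq] at hx
            simp only [hS0, coe_filter, Set.mem_ofPred_eq]
            exact ⟨hx.2, by rw [flp_same, hx.1.2]; rfl⟩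
          · exact (flp_injective j).injOn
        exact_mod_cast this
      · exact_mod_cast card_filter_le _ _
    have key : (∑ x ∈ S, (((insert j I).filter (fun i => flp i x ∈ S)).card : ℝ))
        = (∑ x ∈ S0, (if flp j x ∈ S then (1 : ℝ) else 0)) + (∑ x ∈ S1, (if flp j x ∈ S then (1 : ℝ) else 0))
          + (∑ x ∈ S0, ((I.filter (fun i => flp i x ∈ S0)).card : ℝ))
          + ∑ x ∈ S1, ((I.filter (fun i => flp i x ∈ S1)).card : ℝ) := by
      rw [← hA, ← hB]
      simp_rw [hsplit]
      rw [sum_add_distrib]
      have e1 := sum_union hdisj (f := fun x => (if flp j x ∈ S then (1 : ℝ) else 0))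
      have e2 := sum_union hdisj (f := fun x => ((I.filter (fun i => flp i x ∈ S)).card : ℝ))
      rw [← hunion] at e1 e2
      rw [e1, e2]
      ring
    rw [key, hcard]
    have := entropy_ineq' (a := (S0.card : ℝ)) (b := (S1.card : ℝ)) (Nat.cast_nonneg _) (Nat.cast_nonneg _)
    linarith

/-- Edge-isoperimetric inequality in the cube. -/
lemma iso (S : Finset (Fin n → Bool)) :
    (∑ x ∈ S, (dg S x : ℝ)) ≤ S.card * Real.logb 2 S.card := by
  have := iso_aux (univ : Finset (Fin n)) S (by intro x _ y _ j hj; simp at hj)
  exact this

end Pool.Agent.Helper87.HB
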