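import Pool.Agent.Helper87.HB.Basic

set_option autoImplicit false

namespace Pool.Agent.Helper87.HB

open Finset

variable {n : ℕ}

lemma dg_eq_sum (S : Finset (Fin n → Bool)) (v : Fin n → Bool) :
    dg S v = ∑ i : Fin n, if flp i v ∈ S then 1 else 0 := by
  unfold dg; rw [card_filter]

/-- Double counting of edges between two sets. -/
lemma dg_swap (A C : Finset (Fin n → Bool)) : ∑ x ∈ C, dg A x = ∑ y ∈ A, dg C y := by
  simp_rw [dg_eq_sum]
  rw [sum_comm, sum_comm (s := A)]
  apply sum_congr rfl
  intro i _
  rw [← card_filter, ← card_filter]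
  apply card_bij (fun x _ => flp i x)
  · intro x hx
    simp only [mem_filter] at hx ⊢
    rw [flp_flp]
    exact ⟨hx.2, hx.1⟩
  · intro x _ y _ h
    exact flp_injective i h
  · intro y hy
    simp only [mem_filter] at hy
    refine ⟨flp i y, ?_, flp_flp i y⟩
    simp only [mem_filter, flp_flp]
    exact ⟨hy.2, hy.1⟩

lemma dg_union_le (A C : Finset (Fin n → Bool)) (x : Fin n → Bool) :
    dg (A ∪ C) x ≤ dg A x + dg C x := by
  unfold dg
  calc (univ.filter (fun i : Fin n => flp i x ∈ A ∪ C)).card
      = ((univ.filter (fun i : Fin n => flp i x ∈ A)) ∪ (univ.filter (fun i : Fin n => flp i x ∈ C))).card := by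
        congr 1
        ext i; simp
    _ ≤ _ := card_union_le _ _

lemma dg_univ (x : Fin n → Bool) : dg (univ : Finset (Fin n → Bool)) x = n := by
  unfold dg; simp

lemma sum_dg_univ (C : Finset (Fin n → Bool)) : ∑ y : Fin n → Bool, dg C y = n * C.card := by
  rw [← dg_swap]
  simp [dg_univ, mul_comm]

/-- Buildable sets: start from a vertex, add neighbours of present vertices. -/
def fam (n : ℕ) : ℕ → Finset (Finset (Fin n → Bool))
  | 0 => univ.image (fun v => {v})
  | (k+1) => (fam n k).biUnion (fun C => (C ×ˢ (univ : Finset (Fin n))).image (fun p => insert (flp p.2 p.1) C))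

lemma card_of_mem_fam (k : ℕ) : ∀ C ∈ fam n k, C.card ≤ k + 1 := by
  induction k with
  | zero =>
    intro C hC
    simp only [fam, mem_image, mem_univ, true_and] at hC
    obtain ⟨v, rfl⟩ := hC
    simp
  | succ k ih =>
    intro C hC
    simp only [fam, mem_biUnion, mem_image] at hC
    obtain ⟨B, hB, p, _, rfl⟩ := hC
    have := card_insert_le (flp p.2 p.1) B
    have := ih B hB
    omega

lemma card_fam (k : ℕ) : (fam n k).card ≤ 2 ^ n * ((k + 1) * n) ^ k := by
  induction k with
  | zero =>
    simp only [fam]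
    calc _ ≤ (univ : Finset (Fin n → Bool)).card := card_image_le
      _ = _ := by simp
  | succ k ih =>
    simp only [fam]
    calc _ ≤ ∑ C ∈ fam n k, ((C ×ˢ (univ : Finset (Fin n))).image (fun p => insert (flp p.2 p.1) C)).card :=
          card_biUnion_le
      _ ≤ ∑ C ∈ fam n k, (k + 1) * n := by
          apply sum_le_sum
          intro C hC
          calc _ ≤ (C ×ˢ (univ : Finset (Fin n))).card := card_image_le
            _ = C.card * n := by simp
            _ ≤ (k + 1) * n := Nat.mul_le_mul_right _ (card_of_mem_fam k C hC)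
      _ = (fam n k).card * ((k + 1) * n) := by simp
      _ ≤ 2 ^ n * ((k + 1) * n) ^ k * ((k + 1) * n) := Nat.mul_le_mul_right _ ih
      _ = 2 ^ n * ((k + 1) * n) ^ (k + 1) := by rw [mul_assoc, ← pow_succ]
      _ ≤ 2 ^ n * ((k + 1 + 1) * n) ^ (k + 1) := by
          apply Nat.mul_le_mul_left
          apply Nat.pow_le_pow_left
          apply Nat.mul_le_mul_right
          omega

/-- Adjacency inside `W`. -/
def adjIn (W : Finset (Fin n → Bool)) (a b : Fin n → Bool) : Prop :=
  a ∈ W ∧ b ∈ W ∧ ∃ i, b = flp i a

lemma adjIn_symm {W : Finset (Fin n → Bool)} {a b : Fin n → Bool} (h : adjIn W a b) :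
    adjIn W b a := by
  obtain ⟨ha, hb, i, rfl⟩ := h
  exact ⟨hb, ha, i, (flp_flp i a).symm⟩

lemma rtg_symm {W : Finset (Fin n → Bool)} {a b : Fin n → Bool}
    (h : Relation.ReflTransGen (adjIn W) a b) : Relation.ReflTransGen (adjIn W) b a := by
  induction h with
  | refl => exact Relation.ReflTransGen.refl
  | tail _ h ih => exact Relation.ReflTransGen.head (adjIn_symm h) ih

open Classical in
/-- Connected component of `v` in `W`. -/
noncomputable def cmp (W : Finset (Fin n → Bool)) (v : Fin n → Bool) : Finset (Fin n → Bool) :=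
  W.filter (fun x => Relation.ReflTransGen (adjIn W) v x)

lemma mem_cmp {W : Finset (Fin n → Bool)} {v x : Fin n → Bool} :
    x ∈ cmp W v ↔ x ∈ W ∧ Relation.ReflTransGen (adjIn W) v x := by
  simp [cmp]

lemma self_mem_cmp {W : Finset (Fin n → Bool)} {v : Fin n → Bool} (hv : v ∈ W) : v ∈ cmp W v :=
  mem_cmp.2 ⟨hv, Relation.ReflTransGen.refl⟩

lemma cmp_subset (W : Finset (Fin n → Bool)) (v : Fin n → Bool) : cmp W v ⊆ W := by
  intro x hx; exact (mem_cmp.1 hx).1

lemma cmp_step {W : Finset (Fin n → Bool)} {v x : Fin n → Bool} (hx : x ∈ cmp W v) {i : Fin n}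
    (hi : flp i x ∈ W) : flp i x ∈ cmp W v := by
  rw [mem_cmp] at hx ⊢
  exact ⟨hi, hx.2.tail ⟨hx.1, hi, i, rfl⟩⟩

lemma cmp_mem_fam {W : Finset (Fin n → Bool)} {v : Fin n → Bool} (hv : v ∈ W) :
    cmp W v ∈ fam n ((cmp W v).card - 1) := by
  classical
  set F := (cmp W v).powerset.filter (fun B => v ∈ B ∧ B ∈ fam n (B.card - 1)) with hF
  have hne : F.Nonempty := by
    refine ⟨{v}, ?_⟩
    simp only [hF, mem_filter, mem_powerset, singleton_subset_iff, mem_singleton, card_singleton,
      true_and]
    refine ⟨self_mem_cmp hv, ?_⟩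
    simp [fam]
  obtain ⟨B, hB, hmax⟩ := exists_max_image F (fun B => B.card) hne
  simp only [hF, mem_filter, mem_powerset] at hB
  obtain ⟨hBsub, hvB, hBfam⟩ := hB
  have hclosed : ∀ x ∈ B, ∀ i, flp i x ∈ W → flp i x ∈ B := by
    intro x hx i hi
    by_contra hnot
    have h1 : insert (flp i x) B ∈ F := by
      simp only [hF, mem_filter, mem_powerset]
      refine ⟨?_, mem_insert_of_mem hvB, ?_⟩
      · intro y hy
        rcases mem_insert.1 hy with rfl | hy
        · exact cmp_step (hBsub hx) hi
        · exact hBsub hy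
      · rw [card_insert_of_notMem hnot]
        have hpos : 0 < B.card := card_pos.2 ⟨v, hvB⟩
        obtain ⟨m, hm⟩ : ∃ m, B.card = m + 1 := ⟨B.card - 1, by omega⟩
        rw [hm] at hBfam ⊢
        simp only [Nat.add_sub_cancel] at hBfam ⊢
        simp only [fam, mem_biUnion, mem_image]
        exact ⟨B, hBfam, (x, i), by simp [hx], rfl⟩
    have h2 := hmax _ h1
    simp only [card_insert_of_notMem hnot] at h2
    omega
  have hall : ∀ y, Relation.ReflTransGen (adjIn W) v y → y ∈ B := by
    intro y hy
    induction hy with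
    | refl => exact hvB
    | tail _ h ih =>
      obtain ⟨_, hb, i, rfl⟩ := h
      exact hclosed _ ih i hb
  have : cmp W v = B := by
    apply Subset.antisymm _ hBsub
    intro y hy
    exact hall y (mem_cmp.1 hy).2
  rw [this]; exact hBfam

lemma cmp_insert_subset (W : Finset (Fin n → Bool)) (v : Fin n → Bool) :
    cmp (insert v W) v ⊆ insert v ((univ : Finset (Fin n)).biUnion (fun i => cmp W (flp i v))) := by
  intro x hx
  have key : ∀ y, Relation.ReflTransGen (adjIn (insert v W)) v y →
      y = v ∨ ∃ i, y ∈ cmp W (flp i v) := by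
    intro y hy
    induction hy with
    | refl => left; rfl
    | tail _ h ih =>
      rename_i b c _
      obtain ⟨_, hc, i, rfl⟩ := h
      by_cases hcv : flp i b = v
      · left; exact hcv
      · right
        have hcW : flp i b ∈ W := by
          rcases mem_insert.1 hc with h | h
          · exact absurd h hcv
          · exact h
        rcases ih with rfl | ⟨j, hj⟩
        · exact ⟨i, self_mem_cmp hcW⟩
        · exact ⟨j, cmp_step hj hcW⟩
  rcases key x (mem_cmp.1 hx).2 with rfl | ⟨i, hi⟩
  · exact mem_insert_self _ _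
  · exact mem_insert_of_mem (mem_biUnion.2 ⟨i, mem_univ _, hi⟩)

lemma cmp_insert_of_notMem {W : Finset (Fin n → Bool)} {v x : Fin n → Bool}
    (hx : v ∉ cmp (insert v W) x) (hxW : x ∈ insert v W) : cmp (insert v W) x ⊆ cmp W x := by
  have hxv : x ≠ v := by
    rintro rfl
    exact hx (self_mem_cmp hxW)
  have hxW' : x ∈ W := by
    rcases mem_insert.1 hxW with h | h
    · exact absurd h hxv
    · exact h
  have key : ∀ y, Relation.ReflTransGen (adjIn (insert v W)) x y →
      y ∈ cmp (insert v W) x ∧ y ∈ cmp W x := by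
    intro y hy
    induction hy with
    | refl => exact ⟨self_mem_cmp hxW, self_mem_cmp hxW'⟩
    | tail _ h ih =>
      rename_i b c _
      obtain ⟨_, hc, i, rfl⟩ := h
      have h1 : flp i b ∈ cmp (insert v W) x := cmp_step ih.1 hc
      refine ⟨h1, ?_⟩
      have hcv : flp i b ≠ v := by
        intro h; rw [h] at h1; exact hx h1
      have hcW : flp i b ∈ W := by
        rcases mem_insert.1 hc with h | h
        · exact absurd h hcv
        · exact h
      exact cmp_step ih.2 hcW
  intro y hy
  exact (key y (mem_cmp.1 hy).2).2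

lemma cmp_eq_of_mem {W : Finset (Fin n → Bool)} {v x : Fin n → Bool} (h : v ∈ cmp W x) :
    cmp W x ⊆ cmp W v := by
  intro y hy
  rw [mem_cmp] at h hy ⊢
  refine ⟨hy.1, ?_⟩
  exact (rtg_symm h.2).trans hy.2

lemma dg_le_card_cmp {W : Finset (Fin n → Bool)} {x : Fin n → Bool} (hx : x ∈ W) :
    dg W x ≤ (cmp W x).card := by
  unfold dg
  apply card_le_card_of_injOn (fun i => flp i x)
  · intro i hi
    simp only [coe_filter, mem_univ, true_and, Set.mem_ofPred_eq] at hi
    exact cmp_step (self_mem_cmp hx) hi
  · intro i _ j _ h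
    exact flp_inj_left h

/-- The set `A` percolates for threshold `r`. -/
def Perc (r : ℝ) (A : Finset (Fin n → Bool)) : Prop :=
  ∀ S : Finset (Fin n → Bool), A ⊆ S → (∀ v, r ≤ (dg S v : ℝ) → v ∈ S) → S = univ

/-- Aizenman and Lebowitz type lemma. -/
lemma exists_bad {r : ℝ} {A : Finset (Fin n → Bool)} {s : ℕ} (hn : 0 < n) (hs : 1 ≤ s)
    (hs2 : 2 * s ≤ n) (hperc : Perc r A) (hA : 3 * A.card < 2 ^ n) :
    ∃ C : Finset (Fin n → Bool), C ∈ fam n (C.card - 1) ∧ s ≤ C.card ∧ C.card ≤ n * s ∧ Disjoint C A ∧
      ∀ x ∈ C, r ≤ (dg (A ∪ C) x : ℝ) := by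
  classical
  set F := (univ : Finset (Finset (Fin n → Bool))).filter (fun W => Disjoint W A ∧
    (∀ x ∈ W, r ≤ (dg (A ∪ W) x : ℝ)) ∧ (∀ x ∈ W, (cmp W x).card < s)) with hF
  have hne : F.Nonempty := ⟨∅, by simp [hF]⟩
  obtain ⟨W, hW, hmax⟩ := exists_max_image F (fun B => B.card) hne
  simp only [hF, mem_filter, mem_univ, true_and] at hW
  obtain ⟨hWA, hWr, hWs⟩ := hW
  by_cases hcl : ∀ v, r ≤ (dg (A ∪ W) v : ℝ) → v ∈ A ∪ W
  · exfalso
    have huniv := hperc (A ∪ W) subset_union_left hcl
    have hcard : A.card + W.card = 2 ^ n := by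
      rw [← card_union_of_disjoint hWA.symm, huniv]; simp
    have h1 : ∀ x ∈ W, n ≤ 2 * dg A x := by
      intro x hx
      have h2 := dg_union_le A W x
      rw [huniv, dg_univ] at h2
      have h3 := dg_le_card_cmp hx
      have h4 := hWs x hx
      omega
    have h2 : W.card * n ≤ 2 * (n * A.card) := by
      calc W.card * n = ∑ x ∈ W, n := by simp
        _ ≤ ∑ x ∈ W, 2 * dg A x := sum_le_sum h1
        _ = 2 * ∑ y ∈ A, dg W y := by rw [← mul_sum, dg_swap]
        _ ≤ 2 * ∑ y ∈ A, n := by
            apply Nat.mul_le_mul_left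
            exact sum_le_sum (fun y _ => dg_le W y)
        _ = 2 * (n * A.card) := by simp [mul_comm]
    have h3 : W.card ≤ 2 * A.card := by
      have : W.card * n ≤ (2 * A.card) * n := by nlinarith
      exact Nat.le_of_mul_le_mul_right this hn
    omega
  · push Not at hcl
    obtain ⟨v, hvr, hvS⟩ := hcl
    have hvA : v ∉ A := fun h => hvS (mem_union_left _ h)
    have hvW : v ∉ W := fun h => hvS (mem_union_right _ h)
    have hdisj : Disjoint (insert v W) A := by
      rw [disjoint_insert_left]; exact ⟨hvA, hWA⟩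
    have hge : ∀ x ∈ insert v W, r ≤ (dg (A ∪ insert v W) x : ℝ) := by
      intro x hx
      have hmono : (dg (A ∪ W) x : ℝ) ≤ dg (A ∪ insert v W) x := by
        exact_mod_cast dg_mono (union_subset_union_right (subset_insert v W)) x
      rcases mem_insert.1 hx with rfl | hx
      · linarith
      · linarith [hWr x hx]
    have hex : ∃ x ∈ insert v W, s ≤ (cmp (insert v W) x).card := by
      by_contra hcon
      push Not at hcon
      have h1 : insert v W ∈ F := by
        simp only [hF, mem_filter, mem_univ, true_and]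
        exact ⟨hdisj, hge, hcon⟩
      have h2 := hmax _ h1
      simp only [card_insert_of_notMem hvW] at h2
      omega
    obtain ⟨x, hx, hxs⟩ := hex
    have hvx : v ∈ cmp (insert v W) x := by
      by_contra hnot
      have h1 := card_le_card (cmp_insert_of_notMem hnot hx)
      by_cases hxW : x ∈ W
      · have := hWs x hxW
        omega
      · rcases mem_insert.1 hx with rfl | hx'
        · exact hnot (self_mem_cmp hx)
        · exact hxW hx'
    have hcle : (cmp (insert v W) x).card ≤ n * s := by
      calc (cmp (insert v W) x).card ≤ (cmp (insert v W) v).card := card_le_card (cmp_eq_of_mem hvx)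
        _ ≤ (insert v ((univ : Finset (Fin n)).biUnion (fun i => cmp W (flp i v)))).card :=
            card_le_card (cmp_insert_subset W v)
        _ ≤ ((univ : Finset (Fin n)).biUnion (fun i => cmp W (flp i v))).card + 1 := card_insert_le _ _
        _ ≤ (∑ i : Fin n, (cmp W (flp i v)).card) + 1 := by
            gcongr; exact card_biUnion_le
        _ ≤ (∑ i : Fin n, (s - 1)) + 1 := by
            gcongr with i
            by_cases hi : flp i v ∈ W
            · have := hWs _ hi; omega
            · have : cmp W (flp i v) = ∅ := by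
                rw [eq_empty_iff_forall_notMem]
                intro y hy
                rw [mem_cmp] at hy
                rcases Relation.ReflTransGen.cases_head hy.2 with h | ⟨z, hz, _⟩
                · rw [← h] at hy; exact hi hy.1
                · exact hi hz.1
              rw [this]; simp
        _ = n * (s - 1) + 1 := by simp
        _ ≤ n * s := by
            obtain ⟨t, rfl⟩ : ∃ t, s = t + 1 := ⟨s - 1, by omega⟩
            simp only [Nat.add_sub_cancel]
            rw [Nat.mul_succ]
            omega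
    refine ⟨cmp (insert v W) x, cmp_mem_fam hx, hxs, hcle, ?_, ?_⟩
    · exact disjoint_of_subset_left (cmp_subset _ _) hdisj
    · intro y hy
      have h1 := hge y (cmp_subset _ _ hy)
      have h2 : dg (A ∪ insert v W) y ≤ dg (A ∪ cmp (insert v W) x) y := by
        unfold dg
        apply card_le_card
        intro i hi
        simp only [mem_filter, mem_univ, true_and, mem_union] at hi ⊢
        rcases hi with hi | hi
        · left; exact hi
        · right; exact cmp_step hy hi
      have h3 : (dg (A ∪ insert v W) y : ℝ) ≤ dg (A ∪ cmp (insert v W) x) y := by exact_mod_cast h2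
      linarith

end Pool.Agent.Helper87.HB
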