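import Pool.Agent.Helper87.HB.Prob

set_option autoImplicit false

namespace Pool.Agent.Helper87.HB

open Finset

variable {n : ℕ}

lemma exp_sub_one_le {u η : ℝ} (h0 : 0 ≤ u) (h1 : u ≤ η) (hη : η ≤ 1) :
    Real.exp u - 1 ≤ u * (1 + η) := by
  have h := Real.abs_exp_sub_one_sub_id_le (x := u) (by rw [abs_of_nonneg h0]; linarith)
  have h2 := (abs_le.1 h).2
  nlinarith

lemma sum_biUnion_le' {ι α : Type*} [DecidableEq α] (f : α → ℝ) (hf : ∀ a, 0 ≤ f a)
    (I : Finset ι) (E : ι → Finset α) :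
    ∑ a ∈ I.biUnion E, f a ≤ ∑ i ∈ I, ∑ a ∈ E i, f a := by
  classical
  induction I using Finset.induction_on with
  | empty => simp
  | insert j I hj ih =>
    rw [biUnion_insert, sum_insert hj]
    have h1 : ∑ a ∈ E j ∪ I.biUnion E, f a + ∑ a ∈ E j ∩ I.biUnion E, f a
        = ∑ a ∈ E j, f a + ∑ a ∈ I.biUnion E, f a := sum_union_inter
    have h2 : 0 ≤ ∑ a ∈ E j ∩ I.biUnion E, f a := sum_nonneg (fun a _ => hf a)
    linarith

lemma chernoff_C {p r ε D : ℝ} (h0 : 0 ≤ p) (h1 : p ≤ 1) (hε : 0 < ε) (hε1 : ε ≤ 1)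
    (hD : 0 < D) (hr : 0 ≤ r) (hDr : 8 * D ≤ ε * r) (hp : p * n ≤ (1 - ε) * r)
    (C : Finset (Fin n → Bool))
    (E : Finset (Finset (Fin n → Bool)))
    (hE : ∀ A ∈ E, C.card * (r - 2 * D) ≤ ∑ y ∈ A, wt D C y) :
    ∑ A ∈ E, mu p A ≤ Real.exp (-(ε ^ 2 * C.card * r / (8 * D))) := by
  set lam := ε / (4 * D) with hlam
  have hlam0 : 0 < lam := by positivity
  have h2 := chernoff h0 h1 (fun y => lam * wt D C y) (lam * (C.card * (r - 2 * D))) E (by
    intro A hA
    rw [← mul_sum]
    exact mul_le_mul_of_nonneg_left (hE A hA) hlam0.le)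
  refine le_trans h2 (Real.exp_le_exp.2 ?_)
  have h3 : ∑ y : Fin n → Bool, (Real.exp (lam * wt D C y) - 1) ≤ lam * (1 + ε / 4) * (n * C.card) := by
    calc ∑ y : Fin n → Bool, (Real.exp (lam * wt D C y) - 1)
        ≤ ∑ y : Fin n → Bool, lam * (1 + ε / 4) * wt D C y := by
          apply sum_le_sum
          intro y _
          have h4 : lam * wt D C y ≤ ε / 4 := by
            have := wt_le hD.le C y
            have h5 : lam * wt D C y ≤ lam * D := mul_le_mul_of_nonneg_left this hlam0.le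
            have h6 : lam * D = ε / 4 := by rw [hlam]; field_simp
            linarith
          have h7 := exp_sub_one_le (mul_nonneg hlam0.le (wt_nonneg D C y)) h4 (by linarith)
          linarith
      _ = lam * (1 + ε / 4) * ∑ y : Fin n → Bool, wt D C y := by rw [mul_sum]
      _ ≤ _ := mul_le_mul_of_nonneg_left (sum_wt_le D C) (by positivity)
  have h4 : p * ∑ y : Fin n → Bool, (Real.exp (lam * wt D C y) - 1)
      ≤ lam * C.card * ((1 + ε / 4) * ((1 - ε) * r)) := by
    calc p * ∑ y : Fin n → Bool, (Real.exp (lam * wt D C y) - 1)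
        ≤ p * (lam * (1 + ε / 4) * (n * C.card)) := mul_le_mul_of_nonneg_left h3 h0
      _ = lam * C.card * ((1 + ε / 4) * (p * n)) := by ring
      _ ≤ _ := by
        apply mul_le_mul_of_nonneg_left _ (by positivity)
        exact mul_le_mul_of_nonneg_left hp (by positivity)
  have h5 : (1 + ε / 4) * ((1 - ε) * r) ≤ r - 2 * D - ε * r / 2 := by
    nlinarith [mul_nonneg (mul_nonneg hε.le hε.le) hr]
  have h6 : lam * C.card * ((1 + ε / 4) * ((1 - ε) * r)) ≤ lam * C.card * (r - 2 * D - ε * r / 2) :=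
    mul_le_mul_of_nonneg_left h5 (by positivity)
  have h7 : lam * C.card * (ε * r / 2) = ε ^ 2 * C.card * r / (8 * D) := by
    rw [hlam]; field_simp; ring
  have h8 : lam * C.card * (r - 2 * D - ε * r / 2)
      = lam * (C.card * (r - 2 * D)) - lam * C.card * (ε * r / 2) := by ring
  linarith

open Classical in
/-- Subcritical bound. -/
lemma subcritical {p r ε L : ℝ} {s : ℕ} (h0 : 0 ≤ p) (h1 : p ≤ 1 / 20) (hε : 0 < ε) (hε1 : ε ≤ 1)
    (hn : 10 ≤ n) (hL : L = Real.log n) (hr : 0 ≤ r)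
    (hLr : 24 * L ≤ ε * r) (hLr2 : 144 * L ^ 2 ≤ ε ^ 2 * r)
    (hs : 1 ≤ s) (hs2 : 2 * s ≤ n) (hsr : 192 * L * n ≤ ε ^ 2 * s * r)
    (hp : p * n ≤ (1 - ε) * r) :
    ∑ A ∈ (univ : Finset (Finset (Fin n → Bool))).filter (fun A => Perc r A), mu p A < 1 / 2 := by
  have hn0 : 0 < n := by omega
  have hnr : (10 : ℝ) ≤ n := by exact_mod_cast hn
  have hLpos : 0 < L := by rw [hL]; exact Real.log_pos (by linarith)
  set D := 3 * L with hDdef
  have hD : 0 < D := by positivity
  have hDlog : ∀ k : ℕ, 1 ≤ k → k ≤ n * s → Real.logb 2 (2 * k) ≤ D := by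
    intro k hk1 hk
    have h2 : (2 * k : ℝ) ≤ (n : ℝ) ^ 2 := by
      have : 2 * k ≤ n ^ 2 := by nlinarith
      exact_mod_cast this
    have hk1' : (1 : ℝ) ≤ k := by exact_mod_cast hk1
    have h3 : Real.logb 2 (2 * k) ≤ Real.logb 2 ((n : ℝ) ^ 2) :=
      Real.logb_le_logb_of_le (by norm_num) (by linarith) h2
    refine le_trans h3 ?_
    rw [Real.logb, Real.log_pow, div_le_iff₀ (Real.log_pos (by norm_num)), hDdef, ← hL]
    have := Real.log_two_gt_d9
    push_cast
    nlinarith
  set E0 := (univ : Finset (Finset (Fin n → Bool))).filter (fun A => 2 ^ n ≤ 3 * A.card) with hE0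
  set EC : Finset (Fin n → Bool) → Finset (Finset (Fin n → Bool)) := fun C =>
    (univ : Finset (Finset (Fin n → Bool))).filter
      (fun A => C.card * (r - 2 * D) ≤ ∑ y ∈ A, wt D C y) with hEC
  set I := (Icc s (n * s)).biUnion (fun k => (fam n (k - 1)).filter (fun C => C.card = k)) with hI
  have hsub : (univ : Finset (Finset (Fin n → Bool))).filter (fun A => Perc r A) ⊆ E0 ∪ I.biUnion EC := by
    intro A hA
    simp only [mem_filter, mem_univ, true_and] at hA
    by_cases hc : 2 ^ n ≤ 3 * A.card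
    · exact mem_union_left _ (by simp [hE0, hc])
    · push Not at hc
      obtain ⟨C, hCf, hCs, hCn, hCd, hCr⟩ := exists_bad hn0 hs hs2 hA hc
      apply mem_union_right
      rw [mem_biUnion]
      refine ⟨C, ?_, ?_⟩
      · simp only [hI, mem_biUnion, mem_filter, mem_Icc]
        exact ⟨C.card, ⟨hCs, hCn⟩, hCf, rfl⟩
      · simp only [hEC, mem_filter, mem_univ, true_and]
        exact bad_weight (le_trans hs hCs) (hDlog C.card (le_trans hs hCs) hCn) hCd hCr
  have hp1 : p ≤ 1 := by linarith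
  have hmu : ∀ A : Finset (Fin n → Bool), 0 ≤ mu p A := mu_nonneg h0 hp1
  have hstep1 : ∑ A ∈ (univ : Finset (Finset (Fin n → Bool))).filter (fun A => Perc r A), mu p A
      ≤ ∑ A ∈ E0, mu p A + ∑ C ∈ I, ∑ A ∈ EC C, mu p A := by
    calc _ ≤ ∑ A ∈ E0 ∪ I.biUnion EC, mu p A :=
          sum_le_sum_of_subset_of_nonneg hsub (fun A _ _ => hmu A)
      _ ≤ ∑ A ∈ E0, mu p A + ∑ A ∈ I.biUnion EC, mu p A := by
          rw [← sum_union_inter]
          have : 0 ≤ ∑ A ∈ E0 ∩ I.biUnion EC, mu p A := sum_nonneg (fun A _ => hmu A)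
          linarith
      _ ≤ _ := by
          have : ∑ A ∈ I.biUnion EC, mu p A ≤ ∑ C ∈ I, ∑ A ∈ EC C, mu p A :=
            sum_biUnion_le' _ hmu I EC
          linarith
  -- the first sum
  have hE0le : ∑ A ∈ E0, mu p A ≤ Real.exp (-((2 : ℝ) ^ n / 6)) := by
    have h2 := chernoff (n := n) h0 hp1 (fun _ => 1) ((2 : ℝ) ^ n / 3) E0 (by
      intro A hA
      simp only [hE0, mem_filter, mem_univ, true_and] at hA
      have : (2 : ℝ) ^ n ≤ 3 * A.card := by exact_mod_cast hA
      simp only [sum_const, nsmul_eq_mul, mul_one]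
      linarith)
    refine le_trans h2 (Real.exp_le_exp.2 ?_)
    simp only [sum_const, card_univ, Fintype.card_pi, Fintype.card_bool, prod_const, Fintype.card_fin,
      nsmul_eq_mul, Nat.cast_pow, Nat.cast_ofNat]
    have he : Real.exp 1 - 1 ≤ 2 := by
      have := Real.exp_one_lt_d9
      linarith
    have h2n : (0 : ℝ) < 2 ^ n := by positivity
    have he0 : 0 ≤ Real.exp 1 - 1 := by
      have := Real.add_one_le_exp (1 : ℝ)
      linarith
    have h3 : p * (2 ^ n * (Real.exp 1 - 1)) ≤ 1 / 20 * (2 ^ n * 2) := by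
      apply mul_le_mul h1 _ (by positivity) (by norm_num)
      exact mul_le_mul_of_nonneg_left he h2n.le
    linarith
  -- terms of the second sum
  have hterm : ∀ k ∈ Icc s (n * s), ∑ C ∈ (fam n (k - 1)).filter (fun C => C.card = k),
      ∑ A ∈ EC C, mu p A ≤ Real.exp (-(3 * n)) := by
    intro k hk
    rw [mem_Icc] at hk
    have hk1 : 1 ≤ k := le_trans hs hk.1
    have hkr : (s : ℝ) ≤ k := by exact_mod_cast hk.1
    have hk0 : (0 : ℝ) ≤ k := Nat.cast_nonneg _
    have h2 : ∑ C ∈ (fam n (k - 1)).filter (fun C => C.card = k), ∑ A ∈ EC C, mu p A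
        ≤ ∑ C ∈ (fam n (k - 1)).filter (fun C => C.card = k),
          Real.exp (-(ε ^ 2 * k * r / (8 * D))) := by
      apply sum_le_sum
      intro C hC
      simp only [mem_filter] at hC
      have := chernoff_C h0 hp1 hε hε1 hD hr (by rw [hDdef]; linarith) hp C (EC C) (by
        intro A hA
        simp only [hEC, mem_filter, mem_univ, true_and] at hA
        exact hA)
      rw [hC.2] at this
      exact this
    refine le_trans h2 ?_
    rw [sum_const, nsmul_eq_mul]
    have hcard : (((fam n (k - 1)).filter (fun C => C.card = k)).card : ℝ)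
        ≤ Real.exp (n + 3 * k * L) := by
      have h3 : ((fam n (k - 1)).filter (fun C => C.card = k)).card ≤ 2 ^ n * (n ^ 3) ^ k := by
        calc _ ≤ (fam n (k - 1)).card := card_filter_le _ _
          _ ≤ 2 ^ n * ((k - 1 + 1) * n) ^ (k - 1) := card_fam (k - 1)
          _ ≤ 2 ^ n * (n ^ 3) ^ (k - 1) := by
              apply Nat.mul_le_mul_left
              apply Nat.pow_le_pow_left
              have : k - 1 + 1 ≤ n ^ 2 := by
                have : k ≤ n ^ 2 := by nlinarith [hk.2]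
                omega
              calc (k - 1 + 1) * n ≤ n ^ 2 * n := Nat.mul_le_mul_right _ this
                _ = n ^ 3 := by ring
          _ ≤ 2 ^ n * (n ^ 3) ^ k := by
              apply Nat.mul_le_mul_left
              apply Nat.pow_le_pow_right (by positivity)
              omega
      have h4 : (((fam n (k - 1)).filter (fun C => C.card = k)).card : ℝ)
          ≤ (2 : ℝ) ^ n * ((n : ℝ) ^ 3) ^ k := by exact_mod_cast h3
      refine le_trans h4 ?_
      rw [Real.exp_add]
      apply mul_le_mul _ _ (by positivity) (Real.exp_pos _).le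
      · have h5 : (2 : ℝ) ≤ Real.exp 1 := by
          have := Real.add_one_le_exp (1 : ℝ)
          linarith
        calc (2 : ℝ) ^ n ≤ (Real.exp 1) ^ n := pow_le_pow_left₀ (by norm_num) h5 n
          _ = Real.exp n := by rw [← Real.exp_nat_mul]; simp
      · have h5 : (n : ℝ) = Real.exp L := by
          rw [hL, Real.exp_log (by linarith)]
        have h6 : ((n : ℝ) ^ 3) ^ k = Real.exp (3 * k * L) := by
          conv_lhs => rw [h5]
          rw [← Real.exp_nat_mul, ← Real.exp_nat_mul]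
          congr 1
          push_cast
          ring
        rw [h6]
    calc _ ≤ Real.exp (n + 3 * k * L) * Real.exp (-(ε ^ 2 * k * r / (8 * D))) :=
          mul_le_mul_of_nonneg_right hcard (Real.exp_pos _).le
      _ = Real.exp (n + 3 * k * L - ε ^ 2 * k * r / (8 * D)) := by
          rw [← Real.exp_add]; congr 1
      _ ≤ Real.exp (-(3 * n)) := by
          apply Real.exp_le_exp.2
          have h5 : ε ^ 2 * k * r / (8 * D) = ε ^ 2 * k * r / (48 * L) + ε ^ 2 * k * r / (48 * L) := by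
            rw [hDdef]; field_simp; ring
          have h6 : 3 * k * L ≤ ε ^ 2 * k * r / (48 * L) := by
            rw [le_div_iff₀ (by positivity)]
            have := mul_le_mul_of_nonneg_left hLr2 hk0
            nlinarith
          have h7 : 4 * (n : ℝ) ≤ ε ^ 2 * k * r / (48 * L) := by
            rw [le_div_iff₀ (by positivity)]
            have h8 : ε ^ 2 * s * r ≤ ε ^ 2 * k * r := by
              apply mul_le_mul_of_nonneg_right _ hr
              exact mul_le_mul_of_nonneg_left hkr (by positivity)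
            nlinarith
          linarith
  have hstep2 : ∑ C ∈ I, ∑ A ∈ EC C, mu p A ≤ (n : ℝ) ^ 2 * Real.exp (-(3 * n)) := by
    calc ∑ C ∈ I, ∑ A ∈ EC C, mu p A
        ≤ ∑ k ∈ Icc s (n * s), ∑ C ∈ (fam n (k - 1)).filter (fun C => C.card = k),
            ∑ A ∈ EC C, mu p A :=
          sum_biUnion_le' (fun C => ∑ A ∈ EC C, mu p A) (fun C => sum_nonneg (fun A _ => hmu A)) _ _
      _ ≤ ∑ k ∈ Icc s (n * s), Real.exp (-(3 * n)) := sum_le_sum hterm
      _ = ((n * s + 1 - s : ℕ) : ℝ) * Real.exp (-(3 * n)) := by simp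
      _ ≤ _ := by
          apply mul_le_mul_of_nonneg_right _ (Real.exp_pos _).le
          have : n * s + 1 - s ≤ n ^ 2 := by
            have : n * s + 1 ≤ n ^ 2 := by nlinarith
            omega
          exact_mod_cast this
  have hfin1 : Real.exp (-((2 : ℝ) ^ n / 6)) < 1 / 4 := by
    have h2 : (1024 : ℝ) ≤ 2 ^ n := by
      calc (1024 : ℝ) = 2 ^ 10 := by norm_num
        _ ≤ 2 ^ n := pow_le_pow_right₀ (by norm_num) hn
    rw [Real.exp_neg]
    have h3 := Real.add_one_le_exp ((2 : ℝ) ^ n / 6)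
    rw [inv_lt_comm₀ (Real.exp_pos _) (by norm_num)]
    norm_num
    linarith
  have hfin2 : (n : ℝ) ^ 2 * Real.exp (-(3 * n)) < 1 / 4 := by
    have h3 := Real.add_one_le_exp (n : ℝ)
    have h4 : Real.exp (-(3 * (n : ℝ))) = (Real.exp n ^ 3)⁻¹ := by
      rw [Real.exp_neg, ← Real.exp_nat_mul]; norm_num
    rw [h4]
    have h5 : ((n : ℝ) + 1) ^ 3 ≤ Real.exp n ^ 3 := pow_le_pow_left₀ (by linarith) h3 3
    have h6 : 0 < Real.exp n ^ 3 := by positivity
    rw [mul_inv_lt_iff₀ h6]
    nlinarith [sq_nonneg (n : ℝ)]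
  linarith

end Pool.Agent.Helper87.HB
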