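import Pool.Agent.Helper87.HB.Det

set_option autoImplicit false

namespace Pool.Agent.Helper87.HB

open Finset

variable {n : ℕ}

/-- Truncated multiplicity weight. -/
noncomputable def wt (D : ℝ) (C : Finset (Fin n → Bool)) (y : Fin n → Bool) : ℝ :=
  if (dg C y : ℝ) ≤ D then (dg C y : ℝ) else 0

lemma wt_nonneg (D : ℝ) (C : Finset (Fin n → Bool)) (y : Fin n → Bool) : 0 ≤ wt D C y := by
  unfold wt; split_ifs
  · exact Nat.cast_nonneg _
  · exact le_refl _

lemma wt_le {D : ℝ} (hD : 0 ≤ D) (C : Finset (Fin n → Bool)) (y : Fin n → Bool) : wt D C y ≤ D := by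
  unfold wt; split_ifs with h
  · exact h
  · exact hD

lemma sum_wt_le (D : ℝ) (C : Finset (Fin n → Bool)) :
    ∑ y : Fin n → Bool, wt D C y ≤ n * C.card := by
  calc ∑ y : Fin n → Bool, wt D C y ≤ ∑ y : Fin n → Bool, (dg C y : ℝ) := by
        apply sum_le_sum
        intro y _
        unfold wt; split_ifs
        · exact le_refl _
        · exact Nat.cast_nonneg _
    _ = n * C.card := by
        have := sum_dg_univ C
        exact_mod_cast this

lemma two_mul_edges (Y C : Finset (Fin n → Bool)) (hd : Disjoint Y C) :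
    2 * ∑ y ∈ Y, (dg C y : ℝ) ≤ ((Y ∪ C).card : ℝ) * Real.logb 2 (Y ∪ C).card := by
  have h1 := iso (Y ∪ C)
  rw [sum_union hd] at h1
  have h2 : ∑ y ∈ Y, (dg C y : ℝ) ≤ ∑ y ∈ Y, (dg (Y ∪ C) y : ℝ) := by
    apply sum_le_sum
    intro y _
    exact_mod_cast dg_mono subset_union_right y
  have h3 : ∑ y ∈ Y, (dg C y : ℝ) ≤ ∑ y ∈ C, (dg (Y ∪ C) y : ℝ) := by
    calc ∑ y ∈ Y, (dg C y : ℝ) = ∑ y ∈ C, (dg Y y : ℝ) := by
          have := dg_swap Y C
          exact_mod_cast this.symm
      _ ≤ _ := by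
          apply sum_le_sum
          intro y _
          exact_mod_cast dg_mono subset_union_left y
  linarith

/-- Vertices outside `C` with many neighbours in `C` contribute little. -/
lemma heavy_small (C : Finset (Fin n → Bool)) (hC : 1 ≤ C.card) {D : ℝ}
    (hD : Real.logb 2 (2 * C.card) ≤ D) (Y : Finset (Fin n → Bool)) (hd : Disjoint Y C)
    (hY : ∀ y ∈ Y, D < dg C y) :
    ∑ y ∈ Y, (dg C y : ℝ) ≤ C.card * D := by
  have hCr : (1 : ℝ) ≤ C.card := by exact_mod_cast hC
  by_cases hcard : Y.card ≤ C.card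
  · have h1 := two_mul_edges Y C hd
    have hU : ((Y ∪ C).card : ℝ) ≤ 2 * C.card := by
      rw [card_union_of_disjoint hd]
      push_cast
      have : (Y.card : ℝ) ≤ C.card := by exact_mod_cast hcard
      linarith
    have hU1 : (1 : ℝ) ≤ (Y ∪ C).card := by
      have : C.card ≤ (Y ∪ C).card := card_le_card subset_union_right
      have : (C.card : ℝ) ≤ (Y ∪ C).card := by exact_mod_cast this
      linarith
    have h2 : Real.logb 2 (Y ∪ C).card ≤ D := by
      refine le_trans ?_ hD
      exact Real.logb_le_logb_of_le (by norm_num) (by linarith) hU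
    have h3 : 0 ≤ Real.logb 2 (Y ∪ C).card := Real.logb_nonneg (by norm_num) hU1
    have h4 : ((Y ∪ C).card : ℝ) * Real.logb 2 (Y ∪ C).card ≤ 2 * C.card * D :=
      mul_le_mul hU h2 h3 (by positivity)
    linarith
  · exfalso
    push Not at hcard
    obtain ⟨Y', hY', hc⟩ := exists_subset_card_eq hcard.le
    have hd' : Disjoint Y' C := disjoint_of_subset_left hY' hd
    have h1 := two_mul_edges Y' C hd'
    have hU : (Y' ∪ C).card = 2 * C.card := by
      rw [card_union_of_disjoint hd', hc]; ring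
    rw [hU] at h1
    push_cast at h1
    have h2 : (C.card : ℝ) * D < ∑ y ∈ Y', (dg C y : ℝ) := by
      calc (C.card : ℝ) * D = ∑ y ∈ Y', D := by simp [hc]
        _ < _ := by
          apply sum_lt_sum_of_nonempty
          · rw [← card_pos, hc]; omega
          · intro y hy; exact hY y (hY' hy)
    have h3 : 2 * (C.card : ℝ) * Real.logb 2 (2 * C.card) ≤ 2 * C.card * D :=
      mul_le_mul_of_nonneg_left hD (by positivity)
    linarith

/-- Deterministic consequence of a bad set. -/
lemma bad_weight {r D : ℝ} {A C : Finset (Fin n → Bool)} (hC : 1 ≤ C.card)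
    (hD : Real.logb 2 (2 * C.card) ≤ D) (hd : Disjoint C A)
    (h : ∀ x ∈ C, r ≤ (dg (A ∪ C) x : ℝ)) :
    C.card * (r - 2 * D) ≤ ∑ y ∈ A, wt D C y := by
  classical
  have hCr : (1 : ℝ) ≤ C.card := by exact_mod_cast hC
  have h1 : (C.card : ℝ) * r ≤ ∑ x ∈ C, (dg A x : ℝ) + ∑ x ∈ C, (dg C x : ℝ) := by
    rw [← sum_add_distrib]
    calc (C.card : ℝ) * r = ∑ x ∈ C, r := by simp
      _ ≤ _ := by
        apply sum_le_sum
        intro x hx
        have h2 := h x hx
        have h3 : (dg (A ∪ C) x : ℝ) ≤ dg A x + dg C x := by exact_mod_cast dg_union_le A C x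
        linarith
  have h2 : ∑ x ∈ C, (dg C x : ℝ) ≤ C.card * D := by
    refine le_trans (iso C) ?_
    apply mul_le_mul_of_nonneg_left _ (by positivity)
    refine le_trans ?_ hD
    exact Real.logb_le_logb_of_le (by norm_num) (by linarith) (by linarith)
  have h3 : ∑ x ∈ C, (dg A x : ℝ) = ∑ y ∈ A, (dg C y : ℝ) := by exact_mod_cast dg_swap A C
  have h4 : ∑ y ∈ A, (dg C y : ℝ) = ∑ y ∈ A.filter (fun y => (dg C y : ℝ) ≤ D), (dg C y : ℝ)
      + ∑ y ∈ A.filter (fun y => ¬ (dg C y : ℝ) ≤ D), (dg C y : ℝ) :=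
    (sum_filter_add_sum_filter_not A _ _).symm
  have h5 : ∑ y ∈ A.filter (fun y => ¬ (dg C y : ℝ) ≤ D), (dg C y : ℝ) ≤ C.card * D := by
    apply heavy_small C hC hD
    · exact disjoint_of_subset_left (filter_subset _ _) hd.symm
    · intro y hy
      simp only [mem_filter, not_le] at hy
      exact hy.2
  have h6 : ∑ y ∈ A.filter (fun y => (dg C y : ℝ) ≤ D), (dg C y : ℝ) = ∑ y ∈ A, wt D C y := by
    rw [sum_filter]; rfl
  nlinarith

/-- Weight of a configuration. -/
noncomputable def mu (p : ℝ) (A : Finset (Fin n → Bool)) : ℝ := p ^ A.card * (1 - p) ^ (2 ^ n - A.card)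

lemma mu_nonneg {p : ℝ} (h0 : 0 ≤ p) (h1 : p ≤ 1) (A : Finset (Fin n → Bool)) : 0 ≤ mu p A := by
  unfold mu
  have : 0 ≤ 1 - p := by linarith
  positivity

lemma expect_prod (p : ℝ) (f : (Fin n → Bool) → ℝ) :
    ∑ A : Finset (Fin n → Bool), mu p A * ∏ y ∈ A, f y = ∏ y : Fin n → Bool, (p * f y + (1 - p)) := by
  rw [prod_add]
  have : (univ : Finset (Fin n → Bool)).powerset = (univ : Finset (Finset (Fin n → Bool))) := by
    simp
  rw [this]
  apply sum_congr rfl
  intro A _
  unfold mu
  rw [prod_const, prod_mul_distrib, prod_const]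
  have : (univ \ A).card = 2 ^ n - A.card := by
    rw [card_sdiff_of_subset (subset_univ _)]
    simp
  rw [this]
  ring

lemma mu_total (p : ℝ) : ∑ A : Finset (Fin n → Bool), mu p A = 1 := by
  have := expect_prod (n := n) p (fun _ => 1)
  simp at this
  exact this

/-- Chernoff bound. -/
lemma chernoff {p : ℝ} (h0 : 0 ≤ p) (h1 : p ≤ 1) (h : (Fin n → Bool) → ℝ) (c : ℝ)
    (E : Finset (Finset (Fin n → Bool))) (hE : ∀ A ∈ E, c ≤ ∑ y ∈ A, h y) :
    ∑ A ∈ E, mu p A ≤ Real.exp (-c + p * ∑ y : Fin n → Bool, (Real.exp (h y) - 1)) := by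
  calc ∑ A ∈ E, mu p A ≤ ∑ A ∈ E, Real.exp (-c) * (mu p A * ∏ y ∈ A, Real.exp (h y)) := by
        apply sum_le_sum
        intro A hA
        have h2 := hE A hA
        rw [← Real.exp_sum]
        have h3 : 1 ≤ Real.exp (-c) * Real.exp (∑ y ∈ A, h y) := by
          rw [← Real.exp_add]
          apply Real.one_le_exp
          linarith
        have h4 := mu_nonneg h0 h1 A
        nlinarith
    _ ≤ ∑ A : Finset (Fin n → Bool), Real.exp (-c) * (mu p A * ∏ y ∈ A, Real.exp (h y)) := by
        apply sum_le_sum_of_subset_of_nonneg (subset_univ _)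
        intro A _ _
        have h4 := mu_nonneg h0 h1 A
        positivity
    _ = Real.exp (-c) * ∏ y : Fin n → Bool, (p * Real.exp (h y) + (1 - p)) := by
        rw [← mul_sum, expect_prod]
    _ ≤ Real.exp (-c) * ∏ y : Fin n → Bool, Real.exp (p * (Real.exp (h y) - 1)) := by
        apply mul_le_mul_of_nonneg_left _ (Real.exp_pos _).le
        apply prod_le_prod
        · intro y _
          have := Real.exp_pos (h y)
          have : 0 ≤ 1 - p := by linarith
          positivity
        · intro y _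
          have := Real.add_one_le_exp (p * (Real.exp (h y) - 1))
          linarith
    _ = Real.exp (-c + p * ∑ y : Fin n → Bool, (Real.exp (h y) - 1)) := by
        rw [← Real.exp_sum, ← Real.exp_add, ← mul_sum]

end Pool.Agent.Helper87.HB
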