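import Pool.Agent.Helper87.HB.Lower

set_option autoImplicit false

namespace Pool.Agent.Helper87.HB

open Finset

variable {n : ℕ}

/-- Number of ordered pairs of distinct directions in `T` leading from `v` to `y`. -/
def cnt (v : Fin n → Bool) (T : Finset (Fin n)) (y : Fin n → Bool) : ℕ :=
  (T.offDiag.filter (fun q => flp q.2 (flp q.1 v) = y)).card

lemma cnt_le_two (v : Fin n → Bool) (T : Finset (Fin n)) (y : Fin n → Bool) : cnt v T y ≤ 2 := by
  unfold cnt
  set D := (univ : Finset (Fin n)).filter (fun k => y k ≠ v k) with hD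
  have key : ∀ q : Fin n × Fin n, q.1 ≠ q.2 → flp q.2 (flp q.1 v) = y → D = {q.1, q.2} := by
    intro q hq h
    ext k
    simp only [hD, mem_filter, mem_univ, true_and, mem_insert, mem_singleton]
    rw [← h]
    constructor
    · intro hk
      by_contra hcon
      push Not at hcon
      rw [flp_ne hcon.2, flp_ne hcon.1] at hk
      exact hk rfl
    · rintro (rfl | rfl)
      · rw [flp_ne hq, flp_same]
        cases v q.1 <;> simp
      · rw [flp_same, flp_ne (Ne.symm hq)]
        cases v q.2 <;> simp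
  rcases (T.offDiag.filter (fun q => flp q.2 (flp q.1 v) = y)).eq_empty_or_nonempty with h | h
  · rw [h]; simp
  · obtain ⟨q, hq⟩ := h
    simp only [mem_filter, mem_offDiag] at hq
    have hDq := key q hq.1.2.2 hq.2
    have hDc : D.card = 2 := by
      rw [hDq, card_pair hq.1.2.2]
    calc _ ≤ D.offDiag.card := by
          apply card_le_card
          intro q' hq'
          simp only [mem_filter, mem_offDiag] at hq' ⊢
          have := key q' hq'.1.2.2 hq'.2
          rw [this]
          simp [hq'.1.2.2]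
      _ = 2 := by rw [offDiag_card, hDc]

lemma sum_cnt (v : Fin n → Bool) (T : Finset (Fin n)) :
    ∑ y : Fin n → Bool, cnt v T y = T.card * T.card - T.card := by
  unfold cnt
  rw [← offDiag_card]
  exact (card_eq_sum_card_fiberwise (f := fun q : Fin n × Fin n => flp q.2 (flp q.1 v))
    (s := T.offDiag) (t := univ) (by intro x _; simp)).symm

lemma sum_cnt_mem (v : Fin n → Bool) (T : Finset (Fin n)) (A : Finset (Fin n → Bool)) :
    ∑ y ∈ A, cnt v T y = (T.offDiag.filter (fun q => flp q.2 (flp q.1 v) ∈ A)).card := by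
  unfold cnt
  rw [card_eq_sum_card_fiberwise (f := fun q : Fin n × Fin n => flp q.2 (flp q.1 v))
    (s := T.offDiag.filter (fun q => flp q.2 (flp q.1 v) ∈ A)) (t := A)
    (by intro x hx; simp at hx ⊢; exact hx.2)]
  apply sum_congr rfl
  intro y hy
  congr 1
  ext q
  simp only [mem_filter]
  constructor
  · rintro ⟨h1, h2⟩
    exact ⟨⟨h1, by rw [h2]; exact hy⟩, h2⟩
  · rintro ⟨⟨h1, _⟩, h2⟩
    exact ⟨h1, h2⟩

/-- If `A` does not percolate, some vertex sees few infected vertices at distance two. -/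
lemma exists_few {r : ℝ} {A : Finset (Fin n → Bool)} (h : ¬ Perc r A) :
    ∃ (v : Fin n → Bool) (T : Finset (Fin n)), (n : ℝ) - r < T.card ∧
      (∑ y ∈ A, (cnt v T y : ℝ)) ≤ T.card * r := by
  classical
  unfold Perc at h
  push Not at h
  obtain ⟨S, hAS, hcl, hne⟩ := h
  obtain ⟨v, hv⟩ : ∃ v, v ∉ S := by
    by_contra hcon
    push Not at hcon
    exact hne (eq_univ_iff_forall.2 hcon)
  have hlt : ∀ w, w ∉ S → (dg S w : ℝ) < r := by
    intro w hw
    by_contra hcon
    push Not at hcon
    exact hw (hcl w hcon)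
  refine ⟨v, univ.filter (fun i => flp i v ∉ S), ?_, ?_⟩
  · have h1 := card_filter_add_card_filter_not (s := (univ : Finset (Fin n))) (fun i => flp i v ∈ S)
    simp only [card_univ, Fintype.card_fin] at h1
    have h2 := hlt v hv
    unfold dg at h2
    have h3 : (((univ : Finset (Fin n)).filter (fun i => flp i v ∈ S)).card : ℝ)
        + ((univ.filter (fun i => flp i v ∉ S)).card : ℝ) = n := by exact_mod_cast h1
    linarith
  · set T := (univ : Finset (Fin n)).filter (fun i => flp i v ∉ S) with hT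
    have h1 : (∑ y ∈ A, (cnt v T y : ℝ)) = ((T.offDiag.filter (fun q => flp q.2 (flp q.1 v) ∈ A)).card : ℝ) := by
      exact_mod_cast sum_cnt_mem v T A
    rw [h1]
    have h2 : (T.offDiag.filter (fun q => flp q.2 (flp q.1 v) ∈ A)).card
        ≤ ∑ i ∈ T, dg S (flp i v) := by
      calc _ = ∑ i ∈ T, ((T.offDiag.filter (fun q => flp q.2 (flp q.1 v) ∈ A)).filter
              (fun q => q.1 = i)).card :=
            card_eq_sum_card_fiberwise (by
              intro q hq
              simp only [coe_filter, mem_offDiag, Set.mem_ofPred_eq] at hq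
              exact hq.1.1)
        _ ≤ _ := by
            apply sum_le_sum
            intro i _
            unfold dg
            apply card_le_card_of_injOn (fun q => q.2)
            · intro q hq
              simp only [coe_filter, mem_filter, mem_offDiag, Set.mem_ofPred_eq, mem_univ, true_and] at hq ⊢
              rw [← hq.2]
              exact hAS hq.1.2
            · intro q hq q' hq' hqq
              simp only [coe_filter, mem_filter, mem_offDiag, Set.mem_ofPred_eq] at hq hq'
              exact Prod.ext (hq.2.trans hq'.2.symm) hqq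
    calc ((T.offDiag.filter (fun q => flp q.2 (flp q.1 v) ∈ A)).card : ℝ)
        ≤ ∑ i ∈ T, (dg S (flp i v) : ℝ) := by exact_mod_cast h2
      _ ≤ ∑ i ∈ T, r := by
          apply sum_le_sum
          intro i hi
          simp only [hT, mem_filter, mem_univ, true_and] at hi
          exact (hlt _ hi).le
      _ = T.card * r := by simp

lemma exp_neg_sub_one_le {u lam : ℝ} (h0 : 0 ≤ u) (h1 : u ≤ 2) (hl0 : 0 ≤ lam) (hl : lam ≤ 1 / 2) :
    Real.exp (-(lam * u)) - 1 ≤ -(lam * (1 - 2 * lam) * u) := by
  have h2 : lam * u ≤ 1 := by nlinarith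
  have h := Real.abs_exp_sub_one_sub_id_le (x := -(lam * u)) (by
    rw [abs_neg, abs_of_nonneg (by positivity)]; exact h2)
  have h3 := (abs_le.1 h).2
  nlinarith [mul_nonneg (mul_nonneg hl0 hl0) (mul_nonneg h0 (sub_nonneg.2 h1))]

lemma chernoff_T {p r ε : ℝ} (h0 : 0 ≤ p) (h1 : p ≤ 1) (hε : 0 < ε) (hε1 : ε ≤ 1)
    (hr : 0 ≤ r) (hrn : 8 * (r + 1) ≤ ε * n) (hp : (1 + ε) * r ≤ p * n)
    (v : Fin n → Bool) (T : Finset (Fin n)) (hT : (n : ℝ) - r < T.card)
    (E : Finset (Finset (Fin n → Bool)))
    (hE : ∀ A ∈ E, (∑ y ∈ A, (cnt v T y : ℝ)) ≤ T.card * r) :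
    ∑ A ∈ E, mu p A ≤ Real.exp (-(ε ^ 2 * n * r / 64)) := by
  have hn0 : (0 : ℝ) < n := by
    by_contra hcon
    push Not at hcon
    nlinarith
  set lam := ε / 16 with hlam
  have hlam0 : 0 < lam := by positivity
  have h2 := chernoff h0 h1 (fun y => -(lam * cnt v T y)) (-(lam * (T.card * r))) E (by
    intro A hA
    rw [sum_neg_distrib, ← mul_sum]
    have := mul_le_mul_of_nonneg_left (hE A hA) hlam0.le
    linarith)
  refine le_trans h2 (Real.exp_le_exp.2 ?_)
  have hTn : (T.card : ℝ) ≤ n := by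
    have : T.card ≤ (univ : Finset (Fin n)).card := card_le_univ T
    simp only [card_univ, Fintype.card_fin] at this
    exact_mod_cast this
  have h3 : ∑ y : Fin n → Bool, (Real.exp (-(lam * cnt v T y)) - 1)
      ≤ -(lam * (1 - 2 * lam) * (T.card * (T.card - 1))) := by
    calc ∑ y : Fin n → Bool, (Real.exp (-(lam * cnt v T y)) - 1)
        ≤ ∑ y : Fin n → Bool, -(lam * (1 - 2 * lam) * cnt v T y) := by
          apply sum_le_sum
          intro y _
          apply exp_neg_sub_one_le (Nat.cast_nonneg _) _ hlam0.le (by linarith)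
          exact_mod_cast cnt_le_two v T y
      _ = -(lam * (1 - 2 * lam) * ∑ y : Fin n → Bool, (cnt v T y : ℝ)) := by
          rw [sum_neg_distrib, mul_sum]
      _ = _ := by
          have h4 := sum_cnt v T
          have h5 : ∑ y : Fin n → Bool, (cnt v T y : ℝ) = T.card * (T.card - 1) := by
            have h6 : (∑ y : Fin n → Bool, (cnt v T y : ℝ)) = ((T.card * T.card - T.card : ℕ) : ℝ) := by
              exact_mod_cast h4
            rw [h6, Nat.cast_sub (Nat.le_mul_self _)]
            push_cast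
            ring
          rw [h5]
  have h4 : p * ∑ y : Fin n → Bool, (Real.exp (-(lam * cnt v T y)) - 1)
      ≤ p * (-(lam * (1 - 2 * lam) * (T.card * (T.card - 1)))) := mul_le_mul_of_nonneg_left h3 h0
  have hTge : n * (1 - ε / 8) ≤ (T.card : ℝ) - 1 := by linarith
  have hT1 : (n : ℝ) / 2 ≤ T.card := by nlinarith
  -- p * (T - 1) * (1 - 2 lam) ≥ (1 + ε/2) r
  have h5 : (1 + ε / 2) * r ≤ p * (1 - 2 * lam) * (T.card - 1) := by
    have h6 : p * (1 - 2 * lam) * (n * (1 - ε / 8)) ≤ p * (1 - 2 * lam) * (T.card - 1) := by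
      apply mul_le_mul_of_nonneg_left hTge
      apply mul_nonneg h0
      linarith
    have h7 : (1 - 2 * lam) * (1 - ε / 8) * ((1 + ε) * r) ≤ (1 - 2 * lam) * (1 - ε / 8) * (p * n) := by
      apply mul_le_mul_of_nonneg_left hp
      apply mul_nonneg <;> linarith
    have h8 : (1 + ε / 2) * r ≤ (1 - 2 * lam) * (1 - ε / 8) * ((1 + ε) * r) := by
      have h9 : (1 + ε / 2) ≤ (1 - 2 * lam) * (1 - ε / 8) * (1 + ε) := by
        rw [hlam]
        nlinarith [mul_nonneg hε.le (sub_nonneg.2 hε1), mul_nonneg (mul_nonneg hε.le hε.le) hε.le]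
      calc (1 + ε / 2) * r ≤ ((1 - 2 * lam) * (1 - ε / 8) * (1 + ε)) * r :=
            mul_le_mul_of_nonneg_right h9 hr
        _ = _ := by ring
    calc (1 + ε / 2) * r ≤ (1 - 2 * lam) * (1 - ε / 8) * ((1 + ε) * r) := h8
      _ ≤ (1 - 2 * lam) * (1 - ε / 8) * (p * n) := h7
      _ = p * (1 - 2 * lam) * (n * (1 - ε / 8)) := by ring
      _ ≤ _ := h6
  have h6 : lam * T.card * ((1 + ε / 2) * r) ≤ lam * T.card * (p * (1 - 2 * lam) * (T.card - 1)) :=
    mul_le_mul_of_nonneg_left h5 (by positivity)
  have h7 : lam * (n / 2) * (ε / 2 * r) ≤ lam * T.card * (ε / 2 * r) := by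
    apply mul_le_mul_of_nonneg_right _ (by positivity)
    exact mul_le_mul_of_nonneg_left hT1 hlam0.le
  have h8 : lam * (n / 2) * (ε / 2 * r) = ε ^ 2 * n * r / 64 := by
    rw [hlam]; ring
  nlinarith

open Classical in
/-- Supercritical bound. -/
lemma supercritical {p r ε : ℝ} (h0 : 0 ≤ p) (h1 : p ≤ 1) (hε : 0 < ε) (hε1 : ε ≤ 1)
    (hr : 0 < r) (hrn : 8 * (r + 1) ≤ ε * n) (hp : (1 + ε) * r ≤ p * n)
    (hr2 : 256 ≤ ε ^ 2 * r) (hn : 1 ≤ n) :
    1 / 2 ≤ ∑ A ∈ (univ : Finset (Finset (Fin n → Bool))).filter (fun A => Perc r A), mu p A := by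
  have hmu : ∀ A : Finset (Fin n → Bool), 0 ≤ mu p A := mu_nonneg h0 h1
  have htot := mu_total (n := n) p
  rw [← sum_filter_add_sum_filter_not univ (fun A => Perc r A)] at htot
  set EV : (Fin n → Bool) → Finset (Fin n) → Finset (Finset (Fin n → Bool)) := fun v T =>
    (univ : Finset (Finset (Fin n → Bool))).filter
      (fun A => (∑ y ∈ A, (cnt v T y : ℝ)) ≤ T.card * r) with hEV
  set TT := (univ : Finset (Finset (Fin n))).filter (fun T => (n : ℝ) - r < T.card) with hTT
  have hsub : (univ : Finset (Finset (Fin n → Bool))).filter (fun A => ¬ Perc r A)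
      ⊆ (univ : Finset (Fin n → Bool)).biUnion (fun v => TT.biUnion (fun T => EV v T)) := by
    intro A hA
    simp only [mem_filter, mem_univ, true_and] at hA
    obtain ⟨v, T, hT, hsum⟩ := exists_few hA
    simp only [mem_biUnion, mem_univ, true_and]
    exact ⟨v, T, by simp [hTT, hT], by simp [hEV, hsum]⟩
  have hle : ∑ A ∈ (univ : Finset (Finset (Fin n → Bool))).filter (fun A => ¬ Perc r A), mu p A
      ≤ (4 : ℝ) ^ n * Real.exp (-(ε ^ 2 * n * r / 64)) := by
    calc _ ≤ ∑ A ∈ (univ : Finset (Fin n → Bool)).biUnion (fun v => TT.biUnion (fun T => EV v T)), mu p A :=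
          sum_le_sum_of_subset_of_nonneg hsub (fun A _ _ => hmu A)
      _ ≤ ∑ v : Fin n → Bool, ∑ A ∈ TT.biUnion (fun T => EV v T), mu p A :=
          sum_biUnion_le' _ hmu _ _
      _ ≤ ∑ v : Fin n → Bool, ∑ T ∈ TT, ∑ A ∈ EV v T, mu p A := by
          apply sum_le_sum
          intro v _
          exact sum_biUnion_le' _ hmu _ _
      _ ≤ ∑ v : Fin n → Bool, ∑ T ∈ TT, Real.exp (-(ε ^ 2 * n * r / 64)) := by
          apply sum_le_sum
          intro v _
          apply sum_le_sum
          intro T hT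
          simp only [hTT, mem_filter, mem_univ, true_and] at hT
          exact chernoff_T h0 h1 hε hε1 hr.le hrn hp v T hT (EV v T) (by
            intro A hA
            simp only [hEV, mem_filter, mem_univ, true_and] at hA
            exact hA)
      _ = ((2 : ℝ) ^ n * TT.card) * Real.exp (-(ε ^ 2 * n * r / 64)) := by
          simp [mul_assoc]
      _ ≤ _ := by
          apply mul_le_mul_of_nonneg_right _ (Real.exp_pos _).le
          have h2 : TT.card ≤ 2 ^ n := by
            calc TT.card ≤ (univ : Finset (Finset (Fin n))).card := card_filter_le _ _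
              _ = 2 ^ n := by simp
          have h3 : (TT.card : ℝ) ≤ 2 ^ n := by exact_mod_cast h2
          calc (2 : ℝ) ^ n * TT.card ≤ 2 ^ n * 2 ^ n := mul_le_mul_of_nonneg_left h3 (by positivity)
            _ = 4 ^ n := by rw [← mul_pow]; norm_num
  have h4n : (4 : ℝ) ^ n ≤ Real.exp (2 * n) := by
    have h5 : (2 : ℝ) ≤ Real.exp 1 := by
      have := Real.add_one_le_exp (1 : ℝ)
      linarith
    calc (4 : ℝ) ^ n = (2 ^ 2) ^ n := by norm_num
      _ ≤ (Real.exp 1 ^ 2) ^ n := by
          apply pow_le_pow_left₀ (by norm_num)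
          exact pow_le_pow_left₀ (by norm_num) h5 2
      _ = Real.exp (2 * n) := by
          rw [← pow_mul, ← Real.exp_nat_mul]
          congr 1
          push_cast
          ring
  have hnr : (1 : ℝ) ≤ n := by exact_mod_cast hn
  have h5 : (4 : ℝ) ^ n * Real.exp (-(ε ^ 2 * n * r / 64)) ≤ 1 / 2 := by
    calc _ ≤ Real.exp (2 * n) * Real.exp (-(ε ^ 2 * n * r / 64)) :=
          mul_le_mul_of_nonneg_right h4n (Real.exp_pos _).le
      _ = Real.exp (2 * n - ε ^ 2 * n * r / 64) := by rw [← Real.exp_add]; congr 1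
      _ ≤ Real.exp (-1) := by
          apply Real.exp_le_exp.2
          have : 4 * (n : ℝ) ≤ ε ^ 2 * n * r / 64 := by
            rw [le_div_iff₀ (by norm_num)]
            nlinarith
          linarith
      _ ≤ 1 / 2 := by
          rw [Real.exp_neg, inv_le_comm₀ (Real.exp_pos _) (by norm_num)]
          have := Real.add_one_le_exp (1 : ℝ)
          norm_num
          linarith
  linarith

end Pool.Agent.Helper87.HB
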